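import Pool.Agent.H24.WH.Fih

/-!
# Plain forms of `fih`

`fixc`: the exponent does not depend on `X` (compactness). `every`: every exponent, with `X` localized.
-/

set_option autoImplicit false

namespace Pool.Agent.H48.WP

open Finset Pool.Agent.H48.WN

theorem fixc (θ₀ : ℝ) (h0 : 0 ≤ θ₀) (h1 : θ₀ < 1) :
    ∃ ϑ : ℝ, θ₀ ≤ ϑ ∧ ϑ ≤ (1 + θ₀) / (3 - θ₀) ∧ ∀ ε : ℝ, 0 < ε → ∀ Y : ℝ, ∃ X : ℕ, Y ≤ X ∧
      ∀ θ : ℝ, 0 ≤ θ → θ ≤ 1 → ∃ H : ℕ,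
        (X : ℝ) ^ θ / 2 ≤ H ∧ (H : ℝ) ≤ 2 * (X : ℝ) ^ θ ∧
        (X : ℝ) ^ (1 + θ - |θ - ϑ| - ε) ≤ ∑ n ∈ Ioc X (4 * X), (EI n H) ^ 2 := by
  have key : ∀ j : ℕ, ∃ (X : ℕ) (t : ℝ), (j : ℝ) + 1 ≤ X ∧ t ∈ Set.Icc θ₀ ((1 + θ₀) / (3 - θ₀)) ∧
      ∀ θ : ℝ, 0 ≤ θ → θ ≤ 1 → ∃ H : ℕ,
        (X : ℝ) ^ θ / 2 ≤ H ∧ (H : ℝ) ≤ 2 * (X : ℝ) ^ θ ∧
        (X : ℝ) ^ (1 + θ - |θ - t| - 1 / ((j : ℝ) + 1)) ≤ ∑ n ∈ Ioc X (4 * X), (EI n H) ^ 2 := by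
    intro j
    obtain ⟨Y0, hY0⟩ := Pool.Agent.H24.WH.fih θ₀ h0 h1 (1 / ((j : ℝ) + 1)) (by positivity)
    obtain ⟨X, t, hX, -, ht1, ht2, hx⟩ := hY0 (max Y0 ((j : ℝ) + 1)) (le_max_left _ _)
    exact ⟨X, t, (le_max_right _ _).trans hX, ⟨ht1, ht2⟩, hx⟩
  choose X t hX ht hx using key
  obtain ⟨ϑ, hϑ, φ, hφ, hlim⟩ := isCompact_Icc.tendsto_subseq ht
  refine ⟨ϑ, hϑ.1, hϑ.2, fun ε hε Y => ?_⟩
  obtain ⟨N1, hN1⟩ := Metric.tendsto_atTop.1 hlim (ε / 2) (half_pos hε)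
  obtain ⟨N2, hN2⟩ := exists_nat_gt (max Y (2 / ε))
  have hj1 : N1 ≤ max N1 N2 := le_max_left _ _
  have hj2 : N2 ≤ max N1 N2 := le_max_right _ _
  set j := max N1 N2 with hj
  have hφj : (N2 : ℝ) ≤ (φ j : ℝ) := by exact_mod_cast hj2.trans (hφ.id_le j)
  have hY : Y ≤ (φ j : ℝ) := ((le_max_left _ _).trans hN2.le).trans hφj
  have he : 2 / ε ≤ (φ j : ℝ) := ((le_max_right _ _).trans hN2.le).trans hφj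
  have hX1 := hX (φ j)
  refine ⟨X (φ j), by linarith, fun θ hθ0 hθ1 => ?_⟩
  obtain ⟨H, hH1, hH2, hH3⟩ := hx (φ j) θ hθ0 hθ1
  refine ⟨H, hH1, hH2, le_trans ?_ hH3⟩
  have hd := hN1 j hj1
  rw [Real.dist_eq] at hd
  have hd' : |t (φ j) - ϑ| < ε / 2 := hd
  have hXge : (1 : ℝ) ≤ (X (φ j) : ℝ) := by
    have : (0 : ℝ) ≤ (φ j : ℝ) := Nat.cast_nonneg _
    linarith
  apply Real.rpow_le_rpow_of_exponent_le hXge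
  have h2 : |θ - t (φ j)| ≤ |θ - ϑ| + |t (φ j) - ϑ| := by
    have h3 : θ - t (φ j) = (θ - ϑ) - (t (φ j) - ϑ) := by ring
    rw [h3]
    exact abs_sub _ _
  have h4 : 1 / ((φ j : ℝ) + 1) ≤ ε / 2 := by
    rw [div_le_iff₀ (by positivity)]
    have h5 : 2 ≤ (φ j : ℝ) * ε := by rwa [div_le_iff₀ hε] at he
    nlinarith
  linarith

theorem every (θ : ℝ) (h0 : 1 / 6 ≤ θ) (h1 : θ < 1) (ε : ℝ) (hε : 0 < ε) :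
    ∃ Y₀ : ℝ, ∀ Y : ℝ, Y₀ ≤ Y → ∃ X H : ℕ, Y ≤ X ∧ (X : ℝ) ≤ Y ^ (2 - θ) ∧
      (X : ℝ) ^ θ / 2 ≤ H ∧ (H : ℝ) ≤ 2 * (X : ℝ) ^ θ ∧
      (X : ℝ) ^ (1 + θ - (1 - θ) ^ 2 / 4 - ε) ≤ ∑ n ∈ Ioc X (4 * X), (EI n H) ^ 2 := by
  set δ : ℝ := √(4 + (1 - θ) ^ 2) - 2 with hδ
  have hs : √(4 + (1 - θ) ^ 2) = δ + 2 := by rw [hδ]; ring
  have hsq : (δ + 2) ^ 2 = 4 + (1 - θ) ^ 2 := by
    rw [← hs, Real.sq_sqrt (by positivity)]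
  have hδ0 : 0 ≤ δ := by
    have : √4 ≤ √(4 + (1 - θ) ^ 2) := Real.sqrt_le_sqrt (by nlinarith [sq_nonneg (1 - θ)])
    have h4 : √4 = 2 := by
      rw [show (4 : ℝ) = 2 ^ 2 by norm_num]
      exact Real.sqrt_sq (by norm_num)
    rw [h4] at this
    rw [hδ]; linarith
  have hδθ : δ ≤ θ := by nlinarith
  have hδ1 : δ < 1 - θ := by nlinarith
  have hδ4 : δ ≤ (1 - θ) ^ 2 / 4 := by nlinarith [sq_nonneg δ]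
  have hq : (1 + (θ - δ)) / (3 - (θ - δ)) = θ + δ := by
    have h3 : (3 : ℝ) - (θ - δ) ≠ 0 := by linarith
    rw [div_eq_iff h3]
    nlinarith
  obtain ⟨Y0, hY0⟩ := Pool.Agent.H24.WH.fih (θ - δ) (by linarith) (by linarith)
    (min ε ((1 - θ - δ) / 2)) (lt_min hε (by linarith))
  refine ⟨max Y0 1, fun Y hY => ?_⟩
  have hY1 : 1 ≤ Y := (le_max_right _ _).trans hY
  obtain ⟨X, t, hX1, hX2, ht1, ht2, hx⟩ := hY0 Y ((le_max_left _ _).trans hY)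
  obtain ⟨H, hH1, hH2, hH3⟩ := hx θ (by linarith) h1.le
  have hXge : (1 : ℝ) ≤ (X : ℝ) := hY1.trans hX1
  refine ⟨X, H, hX1, hX2.trans ?_, hH1, hH2, le_trans ?_ hH3⟩
  · apply Real.rpow_le_rpow_of_exponent_le hY1
    have := min_le_right ε ((1 - θ - δ) / 2)
    linarith
  · apply Real.rpow_le_rpow_of_exponent_le hXge
    rw [hq] at ht2
    have h5 : |θ - t| ≤ δ := by
      rw [abs_le]
      constructor <;> linarith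
    have := min_le_left ε ((1 - θ - δ) / 2)
    linarith

end Pool.Agent.H48.WP
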